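import Pool.Agent.TH734.NestQrt
import Pool.Agent.TH734.NestCF

set_option autoImplicit false

/-!
# A context-free language which is not a generator and whose cone contains all quasi-rational
languages
-/

namespace Pool.Agent.Results.MP_2d18ab_lc.NonGenerator

open Pool.Agent.Helper288.Cone
open Pool.Agent.TH734.Nst

/-- There is a context-free language `L` over a finite alphabet such that every quasi-rational
language over a finite alphabet is the image of `L` under a rational transduction, while some
context-free language over a finite alphabet is not. -/
theorem result : ∃ (X : Type) (_ : Fintype X) (L : Language X), L.IsContextFree ∧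
    (∀ (Y : Type) [Fintype Y] (N : Language Y), Qrt Y N → InCone L N) ∧
    ∃ (Y : Type) (_ : Fintype Y) (N : Language Y), N.IsContextFree ∧ ¬ InCone L N :=
  ⟨G, inferInstance, LL, LL_cf, fun _ _ _ h => inCone_of_Qrt h,
    A4, inferInstance, ET, ET_cf, not_inCone_ET⟩

end Pool.Agent.Results.MP_2d18ab_lc.NonGenerator
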